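import Mathlib
import Pool.Agent.H153R4.Pl
import Pool.Agent.Helper152.WavFour
import Pool.Agent.R246.FrameB

/-!
# `ψ_b` is a frame wavelet for all `1/8 < b ≤ 1/6`
-/

namespace Pool.Agent.Results.MP_3fc48d_an.AllFrame

open MeasureTheory Filter Topology Set FourierTransform Pool.Agent.R246.FrameA
  Pool.Agent.R246.FrameB
open scoped ENNReal ComplexConjugate

noncomputable section

/-- `ψ_{j,k}(x) = 2^{j/2} ψ(2^j x - k)` -/
def dil (ψ : ℝ → ℂ) (j k : ℤ) (x : ℝ) : ℂ :=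
  (((2 : ℝ) ^ ((j : ℝ) / 2) : ℝ) : ℂ) * ψ ((2 : ℝ) ^ j * x - (k : ℝ))

/-- `∑_{j,k} |⟨f, ψ_{j,k}⟩|²` -/
def frameSum (ψ f : ℝ → ℂ) : ℝ≥0∞ :=
  ∑' j : ℤ, ∑' k : ℤ, ‖∫ x, f x * conj (dil ψ j k x)‖ₑ ^ 2

/-- `ψ` is a frame wavelet. -/
def IsFrameWavelet (ψ : ℝ → ℂ) : Prop :=
  MemLp ψ 2 volume ∧ ∃ A B : ℝ, 0 < A ∧ A ≤ B ∧ ∀ f : ℝ → ℂ, MemLp f 2 volume →
    ENNReal.ofReal A * ∫⁻ x, ‖f x‖ₑ ^ 2 ≤ frameSum ψ f ∧
    frameSum ψ f ≤ ENNReal.ofReal B * ∫⁻ x, ‖f x‖ₑ ^ 2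

/-- `ψ` is (a representative of) the function `ψ_b ∈ L²(ℝ)` whose (Plancherel) Fourier transform is
the indicator function of `b < |ξ| < 1`. -/
def IsPsi (b : ℝ) (ψ : ℝ → ℂ) : Prop :=
  ∃ h : MemLp ψ 2 volume, ((𝓕 (h.toLp ψ) : Lp ℂ 2 (volume : Measure ℝ)) : ℝ → ℂ) =ᵐ[volume]
    {ξ : ℝ | b < |ξ| ∧ |ξ| < 1}.indicator (fun _ => 1)

lemma lint_eq {f g : Lp ℂ 2 (volume : Measure ℝ)} (h : ‖f‖ = ‖g‖) :
    ∫⁻ x, ‖f x‖ₑ ^ 2 = ∫⁻ x, ‖g x‖ₑ ^ 2 := by
  have key : ∀ u : Lp ℂ 2 (volume : Measure ℝ), ∫⁻ x, ‖u x‖ₑ ^ 2 = ENNReal.ofReal ‖u‖ ^ 2 := by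
    intro u
    rw [Lp.norm_def, ENNReal.ofReal_toReal (Lp.eLpNorm_ne_top _)]
    have b1 := eLpNorm_nnreal_pow_eq_lintegral (f := u) (μ := (volume : Measure ℝ)) (p := 2)
      (by norm_num)
    simp only [NNReal.coe_ofNat, ENNReal.rpow_ofNat, ENNReal.coe_ofNat] at b1
    exact b1.symm
  rw [key, key, h]

/-- folding -/
lemma fold {T : ℝ} (H : ℝ → ℂ) (hH : Integrable H) (hs : ∀ x, ¬ |x| < T → H x = 0)
    (e : ℝ → ℂ) (he : Continuous e) (heb : ∀ x, ‖e x‖ ≤ 1) (hper : ∀ x, e (x - T) = e x) :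
    ∫ x, H x * e x = ∫ x in Ioc 0 T, (H x + H (x - T)) * e x := by
  have hHe : Integrable fun x => H x * e x := by
    refine hH.mul_bdd (c := 1) he.aestronglyMeasurable (Eventually.of_forall heb)
  have h1 : (fun x => H x * e x) = fun x => (Ioc 0 T).indicator (fun x => H x * e x) x +
      (Ioc (-T) 0).indicator (fun x => H x * e x) x := by
    funext x
    by_cases h1 : x ∈ Ioc 0 T
    · have h2 : x ∉ Ioc (-T) 0 := fun h => by have := h.2; have := h1.1; linarith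
      rw [indicator_of_mem h1, indicator_of_notMem h2, add_zero]
    · rw [indicator_of_notMem h1, zero_add]
      by_cases h2 : x ∈ Ioc (-T) 0
      · rw [indicator_of_mem h2]
      · rw [indicator_of_notMem h2, hs x, zero_mul]
        rw [abs_lt]
        rintro ⟨h3, h4⟩
        rcases le_or_gt x 0 with h5 | h5
        · exact h2 ⟨h3, h5⟩
        · exact h1 ⟨h5, h4.le⟩
  have i1 : Integrable ((Ioc 0 T).indicator (fun x => H x * e x)) := hHe.indicator measurableSet_Ioc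
  have i2 : Integrable ((Ioc (-T) 0).indicator (fun x => H x * e x)) :=
    hHe.indicator measurableSet_Ioc
  rw [h1, integral_add i1 i2,
    ← integral_sub_right_eq_self ((Ioc (-T) 0).indicator (fun x => H x * e x)) T]
  have i2' : Integrable fun x => (Ioc (-T) 0).indicator (fun x => H x * e x) (x - T) :=
    i2.comp_sub_right T
  rw [← integral_add i1 i2', ← integral_indicator measurableSet_Ioc]
  congr 1
  funext x
  by_cases h1 : x ∈ Ioc 0 T
  · have h2 : x - T ∈ Ioc (-T) 0 := ⟨by linarith [h1.1], by linarith [h1.2]⟩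
    rw [indicator_of_mem h1, indicator_of_mem h1, indicator_of_mem h2, hper]
    ring
  · have h2 : x - T ∉ Ioc (-T) 0 := fun h => h1 ⟨by linarith [h.1], by linarith [h.2]⟩
    rw [indicator_of_notMem h1, indicator_of_notMem h1, indicator_of_notMem h2, add_zero]

/-- Parseval on `(0, T]` -/
lemma parseval {T : ℝ} (hT : 0 < T) (G : ℝ → ℂ) (hG : MemLp G 2 (volume.restrict (Ioc 0 T))) :
    ∑' k : ℤ, ‖((Real.sqrt T⁻¹ : ℝ) : ℂ) *
      ∫ x in Ioc 0 T, G x * Complex.exp (2 * Real.pi * Complex.I * k * x / T)‖ₑ ^ 2 =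
      ∫⁻ x in Ioc 0 T, ‖G x‖ₑ ^ 2 := by
  have h := hasSum_sq_fourierCoeffOn hT hG
  have h1 : ∀ k : ℤ, ‖((Real.sqrt T⁻¹ : ℝ) : ℂ) *
      ∫ x in Ioc 0 T, G x * Complex.exp (2 * Real.pi * Complex.I * k * x / T)‖ ^ 2 =
      T * ‖fourierCoeffOn hT G (-k)‖ ^ 2 := by
    intro k
    rw [fourierCoeffOn_eq_integral, intervalIntegral.integral_of_le hT.le]
    have e1 : ∫ x in Ioc 0 T, (fourier (-(-k))) (x : AddCircle (T - 0)) • G x =
        ∫ x in Ioc 0 T, G x * Complex.exp (2 * Real.pi * Complex.I * k * x / T) := by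
      congr 1
      funext x
      rw [fourier_coe_apply, smul_eq_mul, mul_comm]
      congr 2
      push_cast
      rw [neg_neg, sub_zero]
    rw [e1, norm_mul, mul_pow, norm_smul, mul_pow, Complex.norm_real,
      Real.norm_of_nonneg (Real.sqrt_nonneg _), Real.sq_sqrt (by positivity), sub_zero,
      Real.norm_of_nonneg (by positivity)]
    field_simp
  have h2 : HasSum (fun k : ℤ => T * ‖fourierCoeffOn hT G (-k)‖ ^ 2)
      (∫ x in (0 : ℝ)..T, ‖G x‖ ^ 2) := by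
    have h3 := h.mul_left T
    rw [sub_zero, smul_eq_mul, ← mul_assoc, mul_inv_cancel₀ hT.ne', one_mul] at h3
    exact (Equiv.neg ℤ).hasSum_iff.2 h3
  have h4 : ∀ k : ℤ, ‖((Real.sqrt T⁻¹ : ℝ) : ℂ) *
      ∫ x in Ioc 0 T, G x * Complex.exp (2 * Real.pi * Complex.I * k * x / T)‖ₑ ^ 2 =
      ENNReal.ofReal (T * ‖fourierCoeffOn hT G (-k)‖ ^ 2) := by
    intro k
    rw [← h1, ENNReal.ofReal_pow (norm_nonneg _), ofReal_norm]
  simp_rw [h4]
  rw [← ENNReal.ofReal_tsum_of_nonneg (fun k => by positivity) h2.summable, h2.tsum_eq,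
    intervalIntegral.integral_of_le hT.le]
  have hint : Integrable (fun x => ‖G x‖ ^ 2) (volume.restrict (Ioc 0 T)) := hG.integrable_norm_pow (by norm_num)
  rw [ofReal_integral_eq_lintegral_ofReal hint (Eventually.of_forall fun x => by positivity)]
  congr 1
  funext x
  rw [ENNReal.ofReal_pow (norm_nonneg _), ofReal_norm]

/-- the pairing in terms of Fourier transforms -/
lemma pairing {b : ℝ} {ψ : ℝ → ℂ} (h : MemLp ψ 2 volume)
    (hF : ((𝓕 (h.toLp ψ) : Lp ℂ 2 (volume : Measure ℝ)) : ℝ → ℂ) =ᵐ[volume]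
      {ξ : ℝ | b < |ξ| ∧ |ξ| < 1}.indicator (fun _ => 1))
    {f : ℝ → ℂ} (hf : MemLp f 2 volume) (j k : ℤ) :
    ∫ x, f x * conj (dil ψ j k x) = ((Real.sqrt ((2 : ℝ) ^ j)⁻¹ : ℝ) : ℂ) *
      ∫ x, HH b ((2 : ℝ) ^ j) ((𝓕 (hf.toLp f) : Lp ℂ 2 (volume : Measure ℝ)) : ℝ → ℂ) x *
        Complex.exp (2 * Real.pi * Complex.I * k * x / ((2 : ℝ) ^ j : ℝ)) := by
  set T : ℝ := (2 : ℝ) ^ j with hT_def
  have hT : 0 < T := by positivity
  set α : ℂ := (((2 : ℝ) ^ ((j : ℝ) / 2) : ℝ) : ℂ) with hα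
  obtain ⟨A, -, hA⟩ := Pool.Agent.Helper152.WavFour.exists_op T (-(k : ℝ)) hT (fun _ => α)
    continuous_const ‖α‖ (fun _ => le_rfl)
  set u : Lp ℂ 2 (volume : Measure ℝ) := A (h.toLp ψ) with hu_def
  have hqmp : Measure.QuasiMeasurePreserving (fun x : ℝ => T * x + -(k : ℝ)) volume volume := by
    refine ⟨by fun_prop, ?_⟩
    rw [Pool.Agent.Helper152.WavFour.map_aff T _ hT]
    exact Measure.smul_absolutelyContinuous
  have hqmp2 : Measure.QuasiMeasurePreserving (fun x : ℝ => T⁻¹ * x + 0) volume volume := by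
    refine ⟨by fun_prop, ?_⟩
    rw [Pool.Agent.Helper152.WavFour.map_aff T⁻¹ _ (inv_pos.2 hT)]
    exact Measure.smul_absolutelyContinuous
  have hu : (⇑u : ℝ → ℂ) =ᵐ[volume] fun x : ℝ =>
      ((((2:ℝ) ^ ((j:ℝ) / 2)) : ℝ) : ℂ) * (h.toLp ψ : ℝ → ℂ) ((2:ℝ) ^ j * x - (k:ℝ)) := by
    filter_upwards [hA (h.toLp ψ)] with x hx
    rw [hu_def, hx, ← sub_eq_add_neg]
  have hdil : dil ψ j k =ᵐ[volume] ⇑u := by
    filter_upwards [hu, hqmp.ae_eq_comp h.coeFn_toLp] with x h1 h2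
    rw [h1]
    unfold dil
    congr 1
    simp only [Function.comp_apply, ← sub_eq_add_neg] at h2
    rw [← hT_def]
    exact h2.symm
  have hFu := Pool.Agent.Helper152.WavFour.fourier_dil (h.toLp ψ) u j k hu
  -- inner products
  have e1 : ∫ x, f x * conj (dil ψ j k x) = inner ℂ u (hf.toLp f) := by
    rw [L2.inner_def]
    refine integral_congr_ae ?_
    filter_upwards [hdil, hf.coeFn_toLp] with x h1 h2
    rw [h1, RCLike.inner_apply, h2]
  have e2 : inner ℂ u (hf.toLp f) = inner ℂ (𝓕 u : Lp ℂ 2 (volume : Measure ℝ))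
      (𝓕 (hf.toLp f) : Lp ℂ 2 (volume : Measure ℝ)) := by
    exact ((Lp.fourierTransformₗᵢ ℝ ℂ).inner_map_map u (hf.toLp f)).symm
  rw [e1, e2, L2.inner_def, ← integral_const_mul]
  refine integral_congr_ae ?_
  filter_upwards [hFu, hqmp2.ae_eq_comp hF] with ξ h1 h2
  rw [RCLike.inner_apply, h1]
  have hinv : (2 : ℝ) ^ (-j) = T⁻¹ := by rw [zpow_neg]
  rw [hinv]
  simp only [Function.comp_apply, add_zero] at h2
  rw [h2]
  unfold HH
  have hset : (T⁻¹ * ξ ∈ {ξ : ℝ | b < |ξ| ∧ |ξ| < 1}) ↔ ξ ∈ SS b T := by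
    simp only [mem_ofPred_eq, SS]
    rw [abs_mul, abs_of_pos (inv_pos.2 hT), ← div_eq_inv_mul, lt_div_iff₀ hT, div_lt_one hT]
  by_cases hξ : ξ ∈ SS b T
  · rw [indicator_of_mem (hset.2 hξ), indicator_of_mem hξ, mul_one, map_mul, Complex.conj_ofReal,
      ← Complex.exp_conj]
    have h3 : (starRingEnd ℂ) (-(2 * (Real.pi : ℂ) * Complex.I * (k : ℂ) * ((T⁻¹ * ξ : ℝ) : ℂ))) =
        2 * Real.pi * Complex.I * k * ξ / (T : ℝ) := by
      rw [map_neg, map_mul, map_mul, map_mul, map_mul, Complex.conj_ofReal, Complex.conj_ofReal,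
        Complex.conj_I, map_ofNat, map_intCast]
      push_cast
      rw [div_eq_mul_inv]
      ring
    rw [h3]
    ring
  · rw [indicator_of_notMem (fun h => hξ (hset.1 h)), indicator_of_notMem hξ, mul_zero, map_zero,
      mul_zero, zero_mul, mul_zero]

/-- the frame sum at scale `j` -/
lemma scale_sum {b : ℝ} {ψ : ℝ → ℂ} (h : MemLp ψ 2 volume)
    (hF : ((𝓕 (h.toLp ψ) : Lp ℂ 2 (volume : Measure ℝ)) : ℝ → ℂ) =ᵐ[volume]
      {ξ : ℝ | b < |ξ| ∧ |ξ| < 1}.indicator (fun _ => 1))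
    {f : ℝ → ℂ} (hf : MemLp f 2 volume) (j : ℤ) :
    ∑' k : ℤ, ‖∫ x, f x * conj (dil ψ j k x)‖ₑ ^ 2 =
      QQ b ((2 : ℝ) ^ j) ((𝓕 (hf.toLp f) : Lp ℂ 2 (volume : Measure ℝ)) : ℝ → ℂ) := by
  simp_rw [pairing h hF hf j]
  set T : ℝ := (2 : ℝ) ^ j with hT_def
  have hT : 0 < T := by positivity
  set F : ℝ → ℂ := ((𝓕 (hf.toLp f) : Lp ℂ 2 (volume : Measure ℝ)) : ℝ → ℂ) with hF_def
  have hFm : MemLp F 2 volume := Lp.memLp _
  have hHm : MemLp (HH b T F) 2 volume := hFm.indicator (SS_meas b T)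
  have hsub : SS b T ⊆ Ioo (-T) T := by
    rintro x ⟨-, h2⟩
    exact abs_lt.1 h2
  have hHi : Integrable (HH b T F) := by
    unfold HH
    rw [integrable_indicator_iff (SS_meas b T)]
    have hfin : volume (SS b T) ≠ ∞ := by
      refine ne_top_of_le_ne_top ?_ (measure_mono hsub)
      rw [Real.volume_Ioo]
      exact ENNReal.ofReal_ne_top
    have : IsFiniteMeasure (volume.restrict (SS b T)) :=
      ⟨by rw [Measure.restrict_apply_univ]; exact lt_top_iff_ne_top.2 hfin⟩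
    exact (hFm.restrict (SS b T)).integrable (by norm_num)
  have hfold : ∀ k : ℤ, ∫ x, HH b T F x * Complex.exp (2 * Real.pi * Complex.I * k * x / (T : ℝ)) =
      ∫ x in Ioc 0 T, GG b T F x * Complex.exp (2 * Real.pi * Complex.I * k * x / (T : ℝ)) := by
    intro k
    refine fold (HH b T F) hHi ?_ _ ?_ ?_ ?_
    · intro x hx
      unfold HH
      refine indicator_of_notMem ?_ _
      exact fun h => hx h.2
    · fun_prop
    · intro x
      have : (2 * Real.pi * Complex.I * k * x / (T : ℝ) : ℂ) =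
          ((2 * Real.pi * k * x / T : ℝ) : ℂ) * Complex.I := by
        push_cast; ring
      rw [this, Complex.norm_exp_ofReal_mul_I]
    · intro x
      have hTc : (T : ℂ) ≠ 0 := by exact_mod_cast hT.ne'
      have : (2 * Real.pi * Complex.I * k * ((x - T : ℝ) : ℂ) / (T : ℝ) : ℂ) =
          2 * Real.pi * Complex.I * k * x / (T : ℝ) - k * (2 * Real.pi * Complex.I) := by
        push_cast
        field_simp
      rw [this, Complex.exp_sub, Complex.exp_int_mul_two_pi_mul_I, div_one]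
  simp_rw [hfold]
  have hGm : MemLp (GG b T F) 2 (volume.restrict (Ioc 0 T)) := by
    have h1 : MemLp (fun x => HH b T F (x - T)) 2 volume := by
      have := hHm.comp_measurePreserving (measurePreserving_sub_right volume T)
      exact this
    exact (hHm.add h1).restrict _
  exact parseval hT (GG b T F) hGm

/-- **Main theorem.** For every `b` with `1/8 < b ≤ 1/6` the function `ψ_b` exists and it is a frame
wavelet. -/
theorem result (b : ℝ) (hb : 1 / 8 < b) (hb' : b ≤ 1 / 6) :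
    (∃ ψ, IsPsi b ψ) ∧ ∀ ψ, IsPsi b ψ → IsFrameWavelet ψ := by
  constructor
  · -- existence
    have hm : MeasurableSet {ξ : ℝ | b < |ξ| ∧ |ξ| < 1} := by
      have := SS_meas b 1
      simpa [SS] using this
    have hfin : volume {ξ : ℝ | b < |ξ| ∧ |ξ| < 1} ≠ ∞ := by
      have hsub : {ξ : ℝ | b < |ξ| ∧ |ξ| < 1} ⊆ Ioo (-1) 1 := by
        rintro x ⟨-, h2⟩
        exact abs_lt.1 h2
      refine ne_top_of_le_ne_top ?_ (measure_mono hsub)
      rw [Real.volume_Ioo]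
      exact ENNReal.ofReal_ne_top
    have hi : MemLp ({ξ : ℝ | b < |ξ| ∧ |ξ| < 1}.indicator (fun _ => (1 : ℂ))) 2 volume :=
      memLp_indicator_const 2 hm 1 (Or.inr hfin)
    set g : Lp ℂ 2 (volume : Measure ℝ) := (Lp.fourierTransformₗᵢ ℝ ℂ).symm (hi.toLp _) with hg
    refine ⟨g, Lp.memLp g, ?_⟩
    have e1 : (Lp.memLp g).toLp (g : ℝ → ℂ) = g := Lp.toLp_coeFn g _
    rw [e1]
    have e2 : (𝓕 g : Lp ℂ 2 (volume : Measure ℝ)) = hi.toLp _ :=
      (Lp.fourierTransformₗᵢ ℝ ℂ).apply_symm_apply (hi.toLp _)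
    rw [e2]
    exact hi.coeFn_toLp
  · rintro ψ ⟨h, hF⟩
    refine ⟨h, 1 / 68, 12, by norm_num, by norm_num, fun f hf => ?_⟩
    have hsum : frameSum ψ f = ∑' j : ℤ, QQ b ((2 : ℝ) ^ j)
        ((𝓕 (hf.toLp f) : Lp ℂ 2 (volume : Measure ℝ)) : ℝ → ℂ) := by
      unfold frameSum
      congr 1
      funext j
      exact scale_sum h hF hf j
    have hn : ∫⁻ x, ‖((𝓕 (hf.toLp f) : Lp ℂ 2 (volume : Measure ℝ)) : ℝ → ℂ) x‖ₑ ^ 2 =
        ∫⁻ x, ‖f x‖ₑ ^ 2 := by
      rw [lint_eq (Lp.norm_fourier_eq (hf.toLp f))]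
      refine lintegral_congr_ae ?_
      filter_upwards [hf.coeFn_toLp] with x hx
      rw [hx]
    have hmeas : Measurable ((𝓕 (hf.toLp f) : Lp ℂ 2 (volume : Measure ℝ)) : ℝ → ℂ) :=
      (Lp.stronglyMeasurable _).measurable
    have hfin : ∫⁻ x, ‖f x‖ₑ ^ 2 ≠ ∞ := by
      have := (eLpNorm_lt_top_iff_lintegral_rpow_enorm_lt_top (p := 2) (f := f) (μ := volume)
        (by norm_num) (by norm_num)).1 hf.2
      simp only [ENNReal.toReal_ofNat, ENNReal.rpow_ofNat] at this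
      exact this.ne
    rw [hsum]
    constructor
    · have := lower hb hb' hmeas (by rw [hn]; exact hfin)
      rwa [hn] at this
    · have := upper (b := b) hb hmeas
      rw [hn] at this
      refine this.trans (le_of_eq ?_)
      congr 1
      norm_num

end

end Pool.Agent.Results.MP_3fc48d_an.AllFrame
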